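import Pool.Agent.Helper76.CY.Lin

/-!
# The local ring of the affine line at the origin
-/

namespace Pool.Agent.Helper81.CY

open Pool.Agent.Helper76.CY

theorem tO_ne_zero (K : Type*) [Field K] : tO K ≠ 0 := by
  unfold tO
  intro h
  have hinj : Function.Injective (algebraMap (Polynomial K) (LocO K)) :=
    IsLocalization.injective (LocO K)
      (Ideal.primeCompl_le_nonZeroDivisors (Ideal.span {(Polynomial.X : Polynomial K)}))
  have := hinj (h.trans (map_zero _).symm)
  exact Polynomial.X_ne_zero this

theorem tO_mem (K : Type*) [Field K] : tO K ∈ IsLocalRing.maximalIdeal (LocO K) := by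
  unfold tO
  rw [IsLocalization.AtPrime.to_map_mem_maximal_iff (LocO K)
    (Ideal.span {(Polynomial.X : Polynomial K)})]
  exact Ideal.mem_span_singleton_self _

theorem tO_not_isUnit (K : Type*) [Field K] : ¬ IsUnit (tO K) := by
  have := tO_mem K
  rwa [IsLocalRing.mem_maximalIdeal, mem_nonunits_iff] at this

theorem isUnit_of_res (K : Type*) [Field K] (x : LocO K) (c : K) (hc : c ≠ 0)
    (h : x - algebraMap K (LocO K) c ∈ Ideal.span {tO K}) : IsUnit x := by
  by_contra hx
  have hx' : x ∈ IsLocalRing.maximalIdeal (LocO K) := by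
    rw [IsLocalRing.mem_maximalIdeal, mem_nonunits_iff]; exact hx
  have h1 : x - algebraMap K (LocO K) c ∈ IsLocalRing.maximalIdeal (LocO K) := by
    have hle : Ideal.span {tO K} ≤ IsLocalRing.maximalIdeal (LocO K) := by
      rw [Ideal.span_singleton_le_iff_mem]
      exact tO_mem K
    exact hle h
  have h2 : algebraMap K (LocO K) c ∈ IsLocalRing.maximalIdeal (LocO K) := by
    have := (IsLocalRing.maximalIdeal (LocO K)).sub_mem hx' h1
    simpa using this
  have h3 : IsUnit (algebraMap K (LocO K) c) := (isUnit_iff_ne_zero.2 hc).map _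
  rw [IsLocalRing.mem_maximalIdeal, mem_nonunits_iff] at h2
  exact h2 h3

end Pool.Agent.Helper81.CY
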