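import Pool.Agent.Helper76.CY.Lin

/-!
# Project CY, piece CY-4a: linear recurrences with distinct roots
-/

set_option autoImplicit false

namespace Pool.Agent.Helper81.CY

theorem recurrence_sum {M ι : Type*} [Field M] (χ : Polynomial M) (hdeg : χ.natDegree = 11)
    (μ : Fin 11 → M) (hμ : Function.Injective μ) (hroot : ∀ i, Polynomial.eval (μ i) χ = 0)
    (v : ℕ → ι → M)
    (hrec : ∀ n q, ∑ i ∈ Finset.range 12, χ.coeff i * v (n + i) q = 0) :
    ∃ w : Fin 11 → ι → M, ∀ n q, v n q = ∑ i, μ i ^ n * w i q := by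
  have hlead : χ.coeff 11 ≠ 0 := by
    rw [← hdeg]
    have h0 : χ ≠ 0 := by
      rintro rfl
      simp at hdeg
    exact Polynomial.leadingCoeff_ne_zero.2 h0
  have hdet : IsUnit (Matrix.vandermonde μ).det :=
    isUnit_iff_ne_zero.2 (Matrix.det_vandermonde_ne_zero_iff.2 hμ)
  refine ⟨fun i q => Matrix.vecMul (fun n : Fin 11 => v n q) (Matrix.vandermonde μ)⁻¹ i, ?_⟩
  intro n q
  obtain ⟨w, hw⟩ : ∃ w : Fin 11 → M,
      w = Matrix.vecMul (fun n : Fin 11 => v n q) (Matrix.vandermonde μ)⁻¹ := ⟨_, rfl⟩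
  change v n q = ∑ i, μ i ^ n *
    Matrix.vecMul (fun n : Fin 11 => v n q) (Matrix.vandermonde μ)⁻¹ i
  rw [← hw]
  have h1 : Matrix.vecMul w (Matrix.vandermonde μ) = fun n : Fin 11 => v n q := by
    rw [hw, Matrix.vecMul_vecMul, Matrix.nonsing_inv_mul _ hdet, Matrix.vecMul_one]
  have hsmall : ∀ m, m < 11 → v m q = ∑ i, μ i ^ m * w i := by
    intro m hm
    have h2 := congrFun h1 ⟨m, hm⟩
    change ∑ i, w i * Matrix.vandermonde μ i ⟨m, hm⟩ = v m q at h2
    rw [← h2]
    refine Finset.sum_congr rfl fun i _ => ?_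
    rw [Matrix.vandermonde_apply, mul_comm]
  have hS : ∀ m, ∑ j ∈ Finset.range 12, χ.coeff j * ∑ i, μ i ^ (m + j) * w i = 0 := by
    intro m
    have h3 : ∀ i, ∑ j ∈ Finset.range 12, χ.coeff j * μ i ^ j = 0 := by
      intro i
      rw [← hroot i, Polynomial.eval_eq_sum_range, hdeg]
    have h4 : ∀ j ∈ Finset.range 12, χ.coeff j * ∑ i, μ i ^ (m + j) * w i =
        ∑ i, μ i ^ m * w i * (χ.coeff j * μ i ^ j) := by
      intro j _
      rw [Finset.mul_sum]
      refine Finset.sum_congr rfl fun i _ => ?_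
      rw [pow_add]; ring
    rw [Finset.sum_congr rfl h4, Finset.sum_comm]
    refine Finset.sum_eq_zero fun i _ => ?_
    rw [← Finset.mul_sum, h3, mul_zero]
  induction n using Nat.strong_induction_on with
  | _ n ih =>
    rcases Nat.lt_or_ge n 11 with hn | hn
    · exact hsmall n hn
    · obtain ⟨m, rfl⟩ := Nat.exists_eq_add_of_le' hn
      have e1 := hrec m q
      have e2 := hS m
      rw [Finset.sum_range_succ] at e1 e2
      have e3 : ∑ x ∈ Finset.range 11, χ.coeff x * v (m + x) q =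
          ∑ x ∈ Finset.range 11, χ.coeff x * ∑ i, μ i ^ (m + x) * w i := by
        refine Finset.sum_congr rfl fun x hx => ?_
        rw [ih (m + x) (by have := Finset.mem_range.1 hx; omega)]
      rw [e3] at e1
      have e4 : χ.coeff 11 * v (m + 11) q = χ.coeff 11 * ∑ i, μ i ^ (m + 11) * w i := by
        linear_combination e1 - e2
      exact mul_left_cancel₀ hlead e4

end Pool.Agent.Helper81.CY
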